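import Mathlib
import Pool.Agent.Lib.helper32.SQL

set_option autoImplicit false

namespace Pool.Agent.Results.MP_1fe139_gt.Counter

open Pool.Agent.Lib.helper32.SQL
open scoped Cardinal

theorem result : ∃ (X : Type) (_ : TopologicalSpace X), T2Space X ∧ StrictQuasiLindelof X ∧
    2 ^ chi X < #X :=
  ⟨X, inferInstance, inferInstance, sel ℕ, big⟩

end Pool.Agent.Results.MP_1fe139_gt.Counter
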